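import Pool.Agent.Mg.F650c5e.Ge53235

namespace Pool.Agent.Results.MP_650c5e_an.BothClasses

open Pool.Agent.MP_650c5e_an.K

theorem result (𝕜 : Type) [RCLike 𝕜] :
    (∃ (X : Type) (_ : NormedAddCommGroup X) (_ : NormedSpace 𝕜 X) (_ : CompleteSpace X),
      HasSymmetricBasis 𝕜 X ∧ NearHilbert X ∧ ¬ Hilbertian 𝕜 X ∧
      ∀ Y : Submodule 𝕜 X, IsClosed (Y : Set X) → AsympHilbertian 𝕜 Y → Hilbertian 𝕜 Y) ∧
    ∀ (X : Type) [NormedAddCommGroup X] [NormedSpace 𝕜 X] [CompleteSpace X],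
      IsMusielakOrlicz 𝕜 X → NearHilbert X → ¬ Hilbertian 𝕜 X →
      ∃ Y : Submodule 𝕜 X, IsClosed (Y : Set X) ∧ AsympHilbertian 𝕜 Y ∧ ¬ Hilbertian 𝕜 Y :=
  ⟨sym_main 𝕜, fun _ _ _ _ => mo_main⟩

end Pool.Agent.Results.MP_650c5e_an.BothClasses
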