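import Pool.Agent.Mg.F650c5e.Gf7257b

namespace Pool.Agent.Results.MP_650c5e_an.MusielakOrlicz

open Pool.Agent.MP_650c5e_an.K

theorem result (𝕜 : Type) [RCLike 𝕜] (X : Type) [NormedAddCommGroup X] [NormedSpace 𝕜 X]
    [CompleteSpace X] (hX : IsMusielakOrlicz 𝕜 X) (h1 : NearHilbert X) (h2 : ¬ Hilbertian 𝕜 X) :
    ∃ Y : Submodule 𝕜 X, IsClosed (Y : Set X) ∧ AsympHilbertian 𝕜 Y ∧ ¬ Hilbertian 𝕜 Y :=
  mo_main hX h1 h2

end Pool.Agent.Results.MP_650c5e_an.MusielakOrlicz
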