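import Pool.Agent.Mg.F650c5e.Ge53235

namespace Pool.Agent.Results.MP_650c5e_an.SymmetricCounterexample

open Pool.Agent.MP_650c5e_an.K

theorem result (𝕜 : Type) [RCLike 𝕜] : ∃ (X : Type) (_ : NormedAddCommGroup X)
    (_ : NormedSpace 𝕜 X) (_ : CompleteSpace X), HasSymmetricBasis 𝕜 X ∧ NearHilbert X ∧
      ¬ Hilbertian 𝕜 X ∧
      ∀ Y : Submodule 𝕜 X, IsClosed (Y : Set X) → AsympHilbertian 𝕜 Y → Hilbertian 𝕜 Y :=
  sym_main 𝕜

end Pool.Agent.Results.MP_650c5e_an.SymmetricCounterexample
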